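import Pool.Agent.E8helper22.SZ.Stm

/-!
SZ-BAL (helper22's project on uniform prime tuples): the sum of a primitive character modulo
`q = p q'` over a residue class modulo `q'` vanishes.
-/

set_option autoImplicit false

namespace Pool.Agent.E8helper10.SZ

open Finset Pool.Agent.E8helper22.SZ

/-- a primitive character does not factor through `q'`: there is `G = 1 + q' c` with `χ G ≠ 1` -/
theorem exists_G (q q' : ℕ) (χ : DirichletCharacter ℂ q) (hq : 0 < q) (hχ : χ.IsPrimitive)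
    (hd : q' ∣ q) (hlt : q' < q) :
    ∃ G : ℕ, (q' : ℤ) ∣ (G : ℤ) - 1 ∧ Nat.Coprime G q ∧ χ (G : ZMod q) ≠ 1 := by
  have : NeZero q := ⟨hq.ne'⟩
  by_contra hcon
  push Not at hcon
  have hf : DirichletCharacter.FactorsThrough χ q' := by
    rw [DirichletCharacter.factorsThrough_iff_ker_unitsMap hd]
    intro g hg
    rw [MonoidHom.mem_ker] at hg ⊢
    have h1 : (((g : ZMod q).val : ℕ) : ZMod q) = (g : ZMod q) := ZMod.natCast_zmod_val _
    have h2 : (((g : ZMod q).val : ℕ) : ZMod q') = 1 := by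
      have h3 : ZMod.castHom hd (ZMod q') (g : ZMod q) = 1 := by
        have := congrArg Units.val hg
        simpa [ZMod.unitsMap] using this
      rw [← h1, map_natCast] at h3
      exact h3
    have h4 : (q' : ℤ) ∣ ((g : ZMod q).val : ℤ) - 1 := by
      rw [← ZMod.intCast_zmod_eq_zero_iff_dvd]
      push_cast
      rw [h2, sub_self]
    have h5 : Nat.Coprime (g : ZMod q).val q := ZMod.val_coe_unit_coprime g
    have h6 := hcon _ h4 h5
    rw [h1] at h6
    apply Units.ext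
    rw [MulChar.coe_toUnitHom, Units.val_one]
    exact h6
  have h7 : χ.conductor ≤ q' := Nat.sInf_le hf
  have h8 : χ.conductor = q := hχ
  omega

theorem sum_zmod (p : ℕ) [NeZero p] (h : ℕ → ℂ) :
    ∑ b ∈ range p, h b = ∑ b : ZMod p, h b.val := by
  apply sum_nbij' (fun b : ℕ => (b : ZMod p)) (fun b : ZMod p => b.val)
  · intro b _; exact mem_univ _
  · intro b _; exact mem_range.2 (ZMod.val_lt b)
  · intro b hb; exact ZMod.val_cast_of_lt (mem_range.1 hb)
  · intro b _; exact ZMod.natCast_zmod_val b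
  · intro b hb
    rw [ZMod.val_cast_of_lt (mem_range.1 hb)]

/-- the complex form -/
theorem bal (q p q' w : ℕ) (χ : DirichletCharacter ℂ q) (hq : 0 < q) (hχ : χ.IsPrimitive)
    (hp : p.Prime) (hqp : q = p * q') (hpw : ¬ p ∣ w) (n : ℕ) :
    ∑ b ∈ range p, χ ((n + q' * w * b : ℕ) : ZMod q) = 0 := by
  have : NeZero q := ⟨hq.ne'⟩
  have : Fact p.Prime := ⟨hp⟩
  have hq' : 0 < q' := Nat.pos_of_ne_zero (by rintro rfl; simp at hqp; omega)
  obtain ⟨G, ⟨c, hc⟩, hGc, hG⟩ := exists_G q q' χ hq hχ ⟨p, by rw [hqp, mul_comm]⟩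
    (by rw [hqp]; nlinarith [hp.two_le])
  have hw : (w : ZMod p) ≠ 0 := by rwa [Ne, ZMod.natCast_eq_zero_iff]
  have hGp : (G : ZMod p) ≠ 0 := by
    rw [Ne, ZMod.natCast_eq_zero_iff]
    intro h
    have := Nat.eq_one_of_dvd_coprimes hGc h ⟨q', hqp⟩
    exact hp.one_lt.ne' this
  -- the permutation of `ZMod p`
  let e : ZMod p ≃ ZMod p := (Equiv.mulLeft₀ (G : ZMod p) hGp).trans
    (Equiv.addRight ((w : ZMod p)⁻¹ * ((c : ℤ) : ZMod p) * (n : ZMod p)))
  have he : ∀ b, e b = (G : ZMod p) * b + (w : ZMod p)⁻¹ * ((c : ℤ) : ZMod p) * (n : ZMod p) :=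
    fun b => rfl
  have key : ∀ b : ZMod p, χ ((n + q' * w * (e b).val : ℕ) : ZMod q) =
      χ (G : ZMod q) * χ ((n + q' * w * b.val : ℕ) : ZMod q) := by
    intro b
    rw [← map_mul]
    congr 1
    have h1 : ((G : ℤ) * (n + q' * w * b.val : ℕ) - (n + q' * w * (e b).val : ℕ) : ℤ) =
        q' * (c * n + w * ((G : ℤ) * b.val - (e b).val)) := by
      have h2 : (G : ℤ) = 1 + q' * c := by linarith
      push_cast
      rw [h2]; ring
    have h3 : (p : ℤ) ∣ (c * n + w * ((G : ℤ) * b.val - (e b).val)) := by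
      rw [← ZMod.intCast_zmod_eq_zero_iff_dvd]
      push_cast
      rw [ZMod.natCast_zmod_val, ZMod.natCast_zmod_val, he]
      field_simp
      ring
    have h4 : (q : ℤ) ∣ ((G : ℤ) * (n + q' * w * b.val : ℕ) - (n + q' * w * (e b).val : ℕ) : ℤ) := by
      rw [h1, hqp]
      push_cast
      rw [mul_comm (p : ℤ)]
      exact mul_dvd_mul_left _ h3
    have h5 := (ZMod.intCast_zmod_eq_zero_iff_dvd _ q).2 h4
    rw [Int.cast_sub, sub_eq_zero] at h5
    push_cast at h5 ⊢
    exact h5.symm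
  have hS : ∑ b ∈ range p, χ ((n + q' * w * b : ℕ) : ZMod q) =
      ∑ b : ZMod p, χ ((n + q' * w * b.val : ℕ) : ZMod q) :=
    sum_zmod p (fun b => χ ((n + q' * w * b : ℕ) : ZMod q))
  have h1 : ∑ b : ZMod p, χ ((n + q' * w * b.val : ℕ) : ZMod q) =
      χ (G : ZMod q) * ∑ b : ZMod p, χ ((n + q' * w * b.val : ℕ) : ZMod q) := by
    rw [mul_sum, ← Equiv.sum_comp e]
    exact sum_congr rfl fun b _ => key b
  rw [hS]
  have h2 : (χ (G : ZMod q) - 1) * ∑ b : ZMod p, χ ((n + q' * w * b.val : ℕ) : ZMod q) = 0 := by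
    rw [sub_mul, one_mul, ← h1, sub_self]
  rcases mul_eq_zero.1 h2 with h3 | h3
  · exact absurd (sub_eq_zero.1 h3) hG
  · exact h3

theorem t_BAL : S_BAL := by
  intro q p q' w χ hq hχ hp hqp hpw n
  have := bal q p q' w χ hq hχ.prim hp hqp hpw n
  have h2 := congrArg Complex.re this
  rw [Complex.re_sum] at h2
  unfold cv
  exact h2

end Pool.Agent.E8helper10.SZ
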