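import Pool.Agent.E8helper22.SZ.Stm

/-!
SZ-TAU (helper22's project on uniform prime tuples): the sum of `∑_{d ∣ m} χ(d)` over a progression.
-/

set_option autoImplicit false

namespace Pool.Agent.E8helper10.SZ

open Finset Pool.Agent.E8helper22.SZ

theorem cv_le {q : ℕ} {χ : DirichletCharacter ℂ q} (hχ : RealPrim q χ) (m : ℕ) : |cv χ m| ≤ 1 := by
  unfold cv
  rcases hχ.quad (m : ZMod q) with h | h | h <;> rw [h] <;> simp

/-- the number of `b ≤ B` with `d ∣ n + W b` -/
theorem cnt (d W n B : ℕ) (hd : 0 < d) (hc : Nat.Coprime d W) :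
    |(#{b ∈ Icc 1 B | d ∣ n + W * b} : ℝ) - B / d| ≤ 1 := by
  have : NeZero d := ⟨hd.ne'⟩
  set v : ℕ := (-(n : ZMod d) * (W : ZMod d)⁻¹).val with hv
  have hW : (W : ZMod d) * (W : ZMod d)⁻¹ = 1 := ZMod.coe_mul_inv_eq_one W hc.symm
  have h1 : ∀ b : ℕ, d ∣ n + W * b ↔ b ≡ v [MOD d] := by
    intro b
    rw [← ZMod.natCast_eq_zero_iff, ← ZMod.natCast_eq_natCast_iff, hv, ZMod.natCast_zmod_val]
    push_cast
    constructor
    · intro h
      have h2 : (W : ZMod d) * b = -n := by linear_combination h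
      calc (b : ZMod d) = ((W : ZMod d) * (W : ZMod d)⁻¹) * b := by rw [hW, one_mul]
        _ = ((W : ZMod d) * b) * (W : ZMod d)⁻¹ := by ring
        _ = -n * (W : ZMod d)⁻¹ := by rw [h2]
    · intro h
      rw [h]
      calc (n : ZMod d) + W * (-n * (W : ZMod d)⁻¹) = n - n * (W * (W : ZMod d)⁻¹) := by ring
        _ = 0 := by rw [hW]; ring
  have h2 : ({b ∈ Icc 1 B | d ∣ n + W * b} : Finset ℕ) = {x ∈ Ioc 0 B | x ≡ v [MOD d]} := by
    ext b
    rw [mem_filter, mem_filter, mem_Icc, mem_Ioc, h1 b]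
    constructor
    · rintro ⟨⟨h3, h4⟩, h5⟩; exact ⟨⟨by omega, h4⟩, h5⟩
    · rintro ⟨⟨h3, h4⟩, h5⟩; exact ⟨⟨by omega, h4⟩, h5⟩
  have h3 := Nat.Ioc_filter_modEq_card 0 B hd v
  rw [← h2] at h3
  have h4 : |(#{b ∈ Icc 1 B | d ∣ n + W * b} : ℚ) - B / d| ≤ 1 := by
    have h5 : (#{b ∈ Icc 1 B | d ∣ n + W * b} : ℚ) =
        ((max (⌊((B : ℚ) - v) / (d : ℚ)⌋ - ⌊(((0 : ℕ) : ℚ) - v) / (d : ℚ)⌋) 0 : ℤ) : ℚ) := by
      exact_mod_cast h3
    rw [h5]
    have a1 := Int.floor_le (((B : ℚ) - v) / (d : ℚ))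
    have a2 := Int.lt_floor_add_one (((B : ℚ) - v) / (d : ℚ))
    have a3 := Int.floor_le ((((0 : ℕ) : ℚ) - v) / (d : ℚ))
    have a4 := Int.lt_floor_add_one ((((0 : ℕ) : ℚ) - v) / (d : ℚ))
    have a5 : ((B : ℚ) - v) / (d : ℚ) - (((0 : ℕ) : ℚ) - v) / (d : ℚ) = B / d := by
      push_cast; ring
    have a6 : (0 : ℚ) ≤ (B : ℚ) / d := by positivity
    push_cast [Int.cast_max] at *
    rw [abs_le]
    constructor
    · have := le_max_left ((⌊((B : ℚ) - v) / (d : ℚ)⌋ : ℚ) - (⌊((0 : ℚ) - v) / (d : ℚ)⌋ : ℚ)) 0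
      linarith
    · have : max ((⌊((B : ℚ) - v) / (d : ℚ)⌋ : ℚ) - (⌊((0 : ℚ) - v) / (d : ℚ)⌋ : ℚ)) 0 ≤
          (B : ℚ) / d + 1 := max_le (by linarith) (by linarith)
      linarith
  have h6 := (Rat.cast_le (K := ℝ)).2 h4
  push_cast at h6
  exact h6

/-- sums of a periodic function -/
theorem per (f : ℕ → ℝ) (p : ℕ) (hp : 0 < p) (hper : ∀ j, f (j + p) = f j)
    (hz : ∑ j ∈ range p, f j = 0) (hb : ∀ j, f j ≤ 1) (J : ℕ) : ∑ j ∈ range J, f j ≤ p := by
  have h1 : Function.Periodic (fun J => ∑ j ∈ range J, f j) p := by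
    intro J
    induction J with
    | zero => simpa using hz
    | succ J ih =>
      have e : J + 1 + p = (J + p) + 1 := by ring
      simp only at ih ⊢
      rw [e, sum_range_succ, ih, sum_range_succ, hper]
  have h2 : ∑ j ∈ range (J % p), f j = ∑ j ∈ range J, f j := h1.map_mod_nat J
  rw [← h2]
  calc ∑ j ∈ range (J % p), f j ≤ ∑ j ∈ range (J % p), (1 : ℝ) := sum_le_sum fun j _ => hb j
    _ = (J % p : ℕ) := by simp
    _ ≤ p := by exact_mod_cast (Nat.mod_lt J hp).le

/-- the sum over one progression in the second part -/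
theorem part2 {q p q' w : ℕ} {χ : DirichletCharacter ℂ q} (hBAL : S_BAL) (hq : 0 < q)
    (hχ : RealPrim q χ) (hp : p.Prime) (hqp : q = p * q') (hw : 0 < w) (hpw : ¬ p ∣ w)
    (n B D e : ℕ) (he : 0 < e) (hc : Nat.Coprime n (q' * w)) :
    ∑ b ∈ Icc 1 B, (if e ∣ n + q' * w * b then
      (if D < (n + q' * w * b) / e then cv χ ((n + q' * w * b) / e) else 0) else 0) ≤ p := by
  have hq' : 0 < q' := Nat.pos_of_ne_zero (by rintro rfl; simp at hqp; omega)
  set W := q' * w with hW
  have hW0 : 0 < W := Nat.mul_pos hq' hw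
  set F : Finset ℕ := (Icc 1 B).filter (fun b => e ∣ n + W * b ∧ D < (n + W * b) / e) with hF
  have h1 : ∑ b ∈ Icc 1 B, (if e ∣ n + W * b then
      (if D < (n + W * b) / e then cv χ ((n + W * b) / e) else 0) else 0) =
      ∑ b ∈ F, cv χ ((n + W * b) / e) := by
    rw [hF, sum_filter]
    apply sum_congr rfl
    intro b _
    by_cases h1 : e ∣ n + W * b
    · by_cases h2 : D < (n + W * b) / e
      · simp [h1, h2]
      · simp [h1, h2]
    · simp [h1]
  rw [h1]
  rcases F.eq_empty_or_nonempty with hE | hE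
  · rw [hE, sum_empty]; positivity
  set b0 := F.min' hE with hb0
  have hb0F : b0 ∈ F := min'_mem F hE
  have hmin : ∀ b ∈ F, b0 ≤ b := fun b hb => min'_le F b hb
  obtain ⟨hb1, hb2, hb3⟩ := mem_filter.1 hb0F
  obtain ⟨hb4, hb5⟩ := mem_Icc.1 hb1
  have heW : Nat.Coprime e W := by
    have h2 : Nat.Coprime (n + W * b0) W := by
      rw [Nat.coprime_add_mul_left_left]; exact hc
    exact Nat.Coprime.coprime_dvd_left hb2 h2
  set r := (n + W * b0) / e with hr
  have hre : e * r = n + W * b0 := Nat.mul_div_cancel' hb2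
  have hexp : ∀ j, n + W * (b0 + e * j) = e * (r + W * j) := by
    intro j
    calc n + W * (b0 + e * j) = (n + W * b0) + e * (W * j) := by ring
      _ = e * r + e * (W * j) := by rw [hre]
      _ = e * (r + W * j) := by ring
  have hval : ∀ j, (n + W * (b0 + e * j)) / e = r + W * j := by
    intro j
    rw [hexp, Nat.mul_div_cancel_left _ he]
  have hFim : F = (range ((B - b0) / e + 1)).image (fun j => b0 + e * j) := by
    ext b
    rw [mem_image]
    constructor
    · intro hb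
      have hle := hmin b hb
      obtain ⟨c1, c2, c3⟩ := mem_filter.1 hb
      obtain ⟨c4, c5⟩ := mem_Icc.1 c1
      have h2 : e ∣ W * (b - b0) := by
        have h3 : (n + W * b) - (n + W * b0) = W * (b - b0) := by
          rw [Nat.mul_sub]; omega
        rw [← h3]
        exact Nat.dvd_sub c2 hb2
      have h3 : e ∣ b - b0 := heW.dvd_of_dvd_mul_left h2
      obtain ⟨j, hj⟩ := h3
      refine ⟨j, ?_, by omega⟩
      rw [mem_range, Nat.lt_succ_iff, Nat.le_div_iff_mul_le he]
      rw [mul_comm]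
      omega
    · rintro ⟨j, hj, rfl⟩
      rw [mem_range, Nat.lt_succ_iff, Nat.le_div_iff_mul_le he, mul_comm] at hj
      rw [hF, mem_filter, mem_Icc]
      refine ⟨⟨by omega, by omega⟩, ?_, ?_⟩
      · exact ⟨_, hexp j⟩
      · rw [hval]
        have : r ≤ r + W * j := Nat.le_add_right _ _
        omega
  rw [hFim, sum_image (by
    intro a _ b _ hab
    have h2 : e * a = e * b := by simpa using hab
    exact Nat.eq_of_mul_eq_mul_left he h2)]
  have h3 : ∑ x ∈ range ((B - b0) / e + 1), cv χ ((n + W * (b0 + e * x)) / e) =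
      ∑ x ∈ range ((B - b0) / e + 1), cv χ (r + W * x) :=
    sum_congr rfl fun x _ => by rw [hval]
  rw [h3]
  apply per (fun x => cv χ (r + W * x)) p hp.pos
  · intro j
    unfold cv
    congr 2
    have : ((W * p : ℕ) : ZMod q) = 0 := by
      rw [ZMod.natCast_eq_zero_iff, hqp, hW]
      exact ⟨w, by ring⟩
    have h4 : r + W * (j + p) = (r + W * j) + W * p := by ring
    rw [h4, Nat.cast_add, this, add_zero]
  · exact hBAL q p q' w χ hq hχ hp hqp hpw r
  · intro j
    exact (abs_le.1 (cv_le hχ _)).2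

theorem t_TAU (hBAL : S_BAL) : S_TAU := by
  intro q p q' w χ hq hχ hp hqp hw hpw n B D hn hD hc
  have hq' : 0 < q' := Nat.pos_of_ne_zero (by rintro rfl; simp at hqp; omega)
  have hm : ∀ b, 0 < n + q' * w * b := fun b => by omega
  -- split at `D`
  have hsplit : ∀ m : ℕ, tau χ m = ∑ d ∈ m.divisors, (if d ≤ D then cv χ d else 0) +
      ∑ e ∈ m.divisors, (if D < m / e then cv χ (m / e) else 0) := by
    intro m
    have h1 : ∑ e ∈ m.divisors, (if D < m / e then cv χ (m / e) else 0) =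
        ∑ d ∈ m.divisors, (if D < d then cv χ d else 0) :=
      Nat.sum_div_divisors m (fun d => if D < d then cv χ d else 0)
    rw [h1, ← sum_add_distrib]
    unfold tau
    apply sum_congr rfl
    intro d _
    by_cases h : d ≤ D
    · rw [if_pos h, if_neg (by omega), add_zero]
    · rw [if_neg h, if_pos (by omega), zero_add]
  have hs : ∑ b ∈ Icc 1 B, tau χ (n + q' * w * b) =
      ∑ b ∈ Icc 1 B, ∑ d ∈ (n + q' * w * b).divisors, (if d ≤ D then cv χ d else 0) +
      ∑ b ∈ Icc 1 B, ∑ e ∈ (n + q' * w * b).divisors,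
        (if D < (n + q' * w * b) / e then cv χ ((n + q' * w * b) / e) else 0) := by
    rw [← sum_add_distrib]
    exact sum_congr rfl fun b _ => hsplit _
  rw [hs]
  -- first part
  have p1 : ∑ b ∈ Icc 1 B, ∑ d ∈ (n + q' * w * b).divisors, (if d ≤ D then cv χ d else 0) ≤
      B * ∑ d ∈ (Icc 1 D).filter (fun d => Nat.Coprime d (q' * w)), cv χ d / d + D := by
    have e1 : ∀ b, ∑ d ∈ (n + q' * w * b).divisors, (if d ≤ D then cv χ d else 0) =
        ∑ d ∈ Icc 1 D, (if d ∣ n + q' * w * b then cv χ d else 0) := by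
      intro b
      rw [← sum_filter, ← sum_filter]
      apply sum_congr _ (fun _ _ => rfl)
      ext d
      rw [mem_filter, mem_filter, Nat.mem_divisors, mem_Icc]
      constructor
      · rintro ⟨⟨h1, _⟩, h3⟩
        exact ⟨⟨Nat.pos_of_dvd_of_pos h1 (hm b), h3⟩, h1⟩
      · rintro ⟨⟨_, h3⟩, h1⟩
        exact ⟨⟨h1, (hm b).ne'⟩, h3⟩
    rw [sum_congr rfl (fun b _ => e1 b), sum_comm]
    have e2 : ∀ d ∈ Icc 1 D, ∑ b ∈ Icc 1 B, (if d ∣ n + q' * w * b then cv χ d else 0) ≤
        (if Nat.Coprime d (q' * w) then (B : ℝ) * (cv χ d / d) else 0) + 1 := by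
      intro d hd
      obtain ⟨hd1, hd2⟩ := mem_Icc.1 hd
      rw [← sum_filter, sum_const, nsmul_eq_mul]
      by_cases hcd : Nat.Coprime d (q' * w)
      · rw [if_pos hcd]
        have h1 := cnt d (q' * w) n B hd1 hcd
        have h2 := cv_le hχ d
        have h3 : |((#{b ∈ Icc 1 B | d ∣ n + q' * w * b} : ℝ) - B / d) * cv χ d| ≤ 1 := by
          rw [abs_mul]
          exact mul_le_one₀ h1 (abs_nonneg _) h2
        have h4 := (abs_le.1 h3).2
        have h5 : (B : ℝ) * (cv χ d / d) = B / d * cv χ d := by ring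
        rw [h5]
        linarith
      · rw [if_neg hcd]
        have : ({b ∈ Icc 1 B | d ∣ n + q' * w * b} : Finset ℕ) = ∅ := by
          rw [filter_eq_empty_iff]
          intro b _ hdvd
          apply hcd
          have h2 : Nat.Coprime (n + q' * w * b) (q' * w) := by
            rw [Nat.coprime_add_mul_left_left]; exact hc
          exact Nat.Coprime.coprime_dvd_left hdvd h2
        rw [this]
        simp
    refine (sum_le_sum e2).trans ?_
    rw [sum_add_distrib, ← sum_filter, ← mul_sum]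
    simp
  -- second part
  have p2 : ∑ b ∈ Icc 1 B, ∑ e ∈ (n + q' * w * b).divisors,
      (if D < (n + q' * w * b) / e then cv χ ((n + q' * w * b) / e) else 0) ≤
      p * ((n : ℝ) + q' * w * B) / D := by
    set M := (n + q' * w * B) / D with hM
    have e1 : ∀ b ∈ Icc 1 B, ∑ e ∈ (n + q' * w * b).divisors,
        (if D < (n + q' * w * b) / e then cv χ ((n + q' * w * b) / e) else 0) =
        ∑ e ∈ Icc 1 M, (if e ∣ n + q' * w * b then
          (if D < (n + q' * w * b) / e then cv χ ((n + q' * w * b) / e) else 0) else 0) := by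
      intro b hb
      obtain ⟨hb1, hb2⟩ := mem_Icc.1 hb
      rw [← sum_filter, ← sum_filter, ← sum_filter, filter_filter]
      apply sum_congr _ (fun _ _ => rfl)
      ext e
      rw [mem_filter, mem_filter, Nat.mem_divisors, mem_Icc]
      constructor
      · rintro ⟨⟨h1, _⟩, h3⟩
        have he := Nat.pos_of_dvd_of_pos h1 (hm b)
        refine ⟨⟨he, ?_⟩, h1, h3⟩
        rw [hM, Nat.le_div_iff_mul_le hD]
        have h4 : e * ((n + q' * w * b) / e) = n + q' * w * b := Nat.mul_div_cancel' h1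
        have h5 : e * D ≤ e * ((n + q' * w * b) / e) := Nat.mul_le_mul_left e h3.le
        have h6 : q' * w * b ≤ q' * w * B := Nat.mul_le_mul_left _ hb2
        omega
      · rintro ⟨_, h1, h3⟩
        exact ⟨⟨h1, (hm b).ne'⟩, h3⟩
    rw [sum_congr rfl e1, sum_comm]
    have e2 : ∀ e ∈ Icc 1 M, ∑ b ∈ Icc 1 B, (if e ∣ n + q' * w * b then
        (if D < (n + q' * w * b) / e then cv χ ((n + q' * w * b) / e) else 0) else 0) ≤ (p : ℝ) := by
      intro e he
      exact part2 hBAL hq hχ hp hqp hw hpw n B D e (mem_Icc.1 he).1 hc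
    refine (sum_le_sum e2).trans ?_
    rw [sum_const, nsmul_eq_mul, Nat.card_Icc, Nat.add_sub_cancel]
    have h1 : (M : ℝ) ≤ ((n : ℝ) + q' * w * B) / D := by
      have := Nat.cast_div_le (α := ℝ) (m := n + q' * w * B) (n := D)
      rw [hM]
      push_cast at this
      exact this
    have h2 : (0 : ℝ) ≤ p := by positivity
    calc (M : ℝ) * p ≤ ((n : ℝ) + q' * w * B) / D * p := mul_le_mul_of_nonneg_right h1 h2
      _ = p * ((n : ℝ) + q' * w * B) / D := by ring
  linarith

end Pool.Agent.E8helper10.SZ
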